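import Pool.Agent.BLP.StmtsE

/-!
# Row E_ECC: `aa` is concave
-/

namespace Pool.Agent.BLP.H3

open MeasureTheory ProbabilityTheory Filter Topology Finset

/-- E_ECC -/
theorem e_ecc (hQua : QuaStmt) (hEex : EexStmt) : EccStmt := by
  intro X _ μ B hB n hn
  have h := hEex X μ B hB
  have hkey : ∀ (k m : ℤ) (N : ℕ), k ≤ m → (m - k + 1).toNat = N →
      Integrable (fun x => L (B x) k 0 m 1) μ ∧ ∫ x, L (B x) k 0 m 1 ∂μ = aa μ B N := by
    intro k m N hkm hN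
    obtain ⟨h1, h2⟩ := h k m 0 1 hkm zero_le_one
    simp only [Rat.cast_zero, Rat.cast_one, sub_zero, Real.sqrt_one, mul_one] at h1 h2
    rw [hN] at h2
    exact ⟨h1, h2⟩
  have hn' : (1 : ℤ) ≤ n := by exact_mod_cast hn
  obtain ⟨i1, e1⟩ := hkey 1 n n hn' (by omega)
  obtain ⟨i2, e2⟩ := hkey 0 (n + 1) (n + 2) (by omega) (by omega)
  obtain ⟨i3, e3⟩ := hkey 1 (n + 1) (n + 1) (by omega) (by omega)
  obtain ⟨i4, e4⟩ := hkey 0 n (n + 1) (by omega) (by omega)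
  have hle : ∫ x, (L (B x) 1 0 n 1 + L (B x) 0 0 (n + 1) 1) ∂μ ≤
      ∫ x, (L (B x) 1 0 (n + 1) 1 + L (B x) 0 0 n 1) ∂μ := by
    refine integral_mono (i1.add i2) (i3.add i4) fun x => ?_
    exact hQua (B x) (hB.cts x) 0 1 n (n + 1) 0 0 1 1 (by omega) hn' (by omega) le_rfl zero_le_one
      le_rfl
  rw [integral_add i1 i2, integral_add i3 i4, e1, e2, e3, e4] at hle
  linarith

end Pool.Agent.BLP.H3
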